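import Pool.Agent.HDG.F6
import Pool.Agent.HDG.SA
import Pool.Agent.HDG.RB

/-!
# MP_d9a86d_gt: the first cohomology of a manifold with a semi-positive class of positive volume

Let `M` be a compact connected complex manifold with a closed real `(1,1)`-form `β ≥ 0`, `∫ β ^ n > 0`. Every closed real
1-form is `re α + df` with exactly one closed holomorphic 1-form `α`; the first Betti number is finite and twice the
dimension of the space of the closed holomorphic 1-forms, so it is even; if `M` is locally conformally Kaehler, it is Kaehler.
-/

set_option autoImplicit false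

noncomputable section

namespace Pool.Agent.Results.MP_d9a86d_gt.FirstCohomology

open Pool.Agent.FBR HFC

universe u

theorem result (M : CM.{u}) (hM : SemiPos M) :
    Hodge1 M ∧ FinB1 M ∧ b1 M = 2 * h10 M ∧ (LCK M → Kaehler M) := by
  obtain ⟨h1, h2, h3, h4⟩ := HDG.first_of M hM fun B b hb hc hn hp t ht => by
    let _ : MeasurableSpace M.E := borel M.E
    have _ : BorelSpace M.E := ⟨rfl⟩
    exact B.main_bm hb hc hn hp ht
  refine ⟨hodge_of h1, fin_of h2, ?_, fun h => h4 (lck_of h)⟩
  rw [b1_eq, h10_eq, h3]

end Pool.Agent.Results.MP_d9a86d_gt.FirstCohomology
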