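import Pool.Agent.HDP.L8

/-!
# MP_d9a86d_gt: Kaehler currents on manifolds with a plurisigned metric

Let `M` be a compact connected complex manifold of dimension `n ≥ 2`, `β ≥ 0` a closed real `(1,1)`-form with `∫ β ^ n > 0`, and
`g` a Hermitian metric such that `dd^c g ≥ 0`, or which is locally conformally plurinegative: `dd^c (e^{-u} g) ≤ 0` near each
point, for local primitives `u` of a closed real 1-form. Then `e^{-f} g` is pluriclosed for a smooth function `f`, and the class of
`β` contains a Kaehler current: `β + dd^c φ ≥ δ g` with `δ > 0` and a locally integrable function `φ ≤ 0`.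
-/

set_option autoImplicit false

noncomputable section

namespace Pool.Agent.Results.MP_d9a86d_gt.KaehlerCurrents

open Pool.Agent.FBR HFC

universe u

theorem result (M : CM.{u}) (hn : 2 ≤ Module.finrank ℂ M.E) (b : Form M.E M.X) (hb : b.Semi) (hb' : ∃ x, b.PosAt x)
    (g : M.X → Bil M.E) (hg : Herm g) (h : Plurisub g ∨ LCN g) :
    (∃ f : M.X → ℝ, SmF M.E f ∧ Pluriclosed fun x => Real.exp (-f x) • g x) ∧
      ∃ (δ : ℝ) (φ : M.X → ℝ), 0 < δ ∧ (∀ x, φ x ≤ 0) ∧ KCur b g δ φ := by
  refine ⟨?_, kcur_sign M hn b hb hb' g hg h⟩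
  rcases h with h | h
  · refine ⟨fun _ => 0, SmF.const 0, ?_⟩
    have h1 : (fun x => Real.exp (-(0 : ℝ)) • g x) = g := by
      funext x
      rw [neg_zero, Real.exp_zero, one_smul]
    rw [h1]
    exact thmD M ⟨b, hb, hb'⟩ hg.real h
  · exact lcn_pc M ⟨b, hb, hb'⟩ hg h

end Pool.Agent.Results.MP_d9a86d_gt.KaehlerCurrents
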