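import Pool.Agent.HDP.Z11
import Pool.Agent.HDP.ZS

/-!
# MP_d9a86d_gt: manifolds with a semi-positive class of positive volume are Kaehler off a compact pluripolar set

Let `M` be a compact connected complex manifold of dimension `n ≥ 2`, `β ≥ 0` a closed real `(1,1)`-form with `∫ β ^ n > 0`, `g` a
Hermitian metric, `p > 0`, `p > n - 2`. There are a smooth function `h` and `δ > 0` such that `β + dd^c h ≥ 0` and the set `A` where this
form is not positive definite is compact and pluripolar; every positive pluriclosed current `T` of bidimension `(1,1)` with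
`T(β) = 0` has support in `A`; and for every `κ > 0` some smooth `f ≤ 0` with maximum `0` and `f ≤ - 1 / κ` on `A` satisfies
`β + dd^c f ≥ (δ (1 - f) ^ (-p) - κ) g`.
-/

set_option autoImplicit false

noncomputable section

namespace Pool.Agent.Results.MP_d9a86d_gt.KaehlerOffPluripolar

open Pool.Agent.FBR HFC

universe u

theorem result (M : CM.{u}) (hn : 2 ≤ Module.finrank ℂ M.E) (b : Form M.E M.X) (hb : b.Semi) (hb' : ∃ x, b.PosAt x)
    (g : M.X → Bil M.E) (hg : Herm g) (p : ℝ) (hp : 0 < p) (hpn : (Module.finrank ℂ M.E : ℝ) - 2 < p) :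
    ∃ (δ : ℝ) (h : M.X → ℝ), 0 < δ ∧ OffPluri b h ∧ ObstIn b (Degen b h) ∧ WeightOn b g p δ (Degen b h) := by
  obtain ⟨δ, h, hδ, h1, h2, h3, h4, h5, h6⟩ := off_pluripolar M hn b hb hb' g hg p hp hpn
  exact ⟨δ, h, hδ, ⟨h1, h2, h3, h4⟩, h5, h6⟩

end Pool.Agent.Results.MP_d9a86d_gt.KaehlerOffPluripolar
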