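import Pool.Agent.HDP.P17

/-!
# MP_d9a86d_gt: real `(1,1)`-forms with `dd^c γ ≥ 0`

Let `M` be a compact connected complex manifold with a closed real `(1,1)`-form `β ≥ 0`, `∫ β ^ n > 0`. Every smooth real
`(1,1)`-form `γ` on `M` with `dd^c γ ≥ 0` has `dd^c γ = 0`.
-/

set_option autoImplicit false

noncomputable section

namespace Pool.Agent.Results.MP_d9a86d_gt.PlurisubForms

open Pool.Agent.FBR HFC

universe u

theorem result (M : CM.{u}) (hM : SemiPos M) (γ : M.X → Bil M.E) (hγ : Real11 γ) (h : Plurisub γ) : Pluriclosed γ :=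
  thmD M hM hγ h

end Pool.Agent.Results.MP_d9a86d_gt.PlurisubForms
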